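import Mathlib
import Pool.Agent.W223.RD.Stms

/-! Project RD (owner helper223), part D6: few smooth integers. -/

set_option autoImplicit false

namespace Pool.Agent.W378.RD.D6

open Finset
open Pool.Agent.W223.RD

theorem tD6 : StmtD6 := by
  classical
  refine ⟨Real.exp 64, ?_, fun X hX => ?_⟩
  · have := Real.add_one_le_exp (64 : ℝ)
    linarith
  have hX0 : 0 < X := lt_of_lt_of_le (Real.exp_pos _) hX
  obtain ⟨L, hL⟩ : ∃ L : ℝ, L = Real.log X := ⟨_, rfl⟩
  have hL64 : 64 ≤ L := by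
    rw [hL, Real.le_log_iff_exp_le hX0]
    exact hX
  obtain ⟨T, hT⟩ : ∃ T : ℝ, T = L ^ ((1 : ℝ) / 3) := ⟨_, rfl⟩
  rw [← hL, ← hT]
  have hT3 : T ^ 3 = L := by
    rw [hT, ← Real.rpow_natCast, ← Real.rpow_mul (by linarith)]
    norm_num
  have hT0 : 0 ≤ T := by
    rw [hT]
    exact Real.rpow_nonneg (by linarith) _
  have hT4 : 4 ≤ T := by
    by_contra h
    have h1 : T < 4 := not_le.1 h
    have : T ^ 3 < 4 ^ 3 := pow_lt_pow_left₀ h1 hT0 (by norm_num)
    linarith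
  have hTpos : 0 < T := by linarith
  obtain ⟨Y, hY⟩ : ∃ Y : ℝ, Y = Real.exp T := ⟨_, rfl⟩
  have hY1 : 1 ≤ Y := by
    rw [hY]
    exact Real.one_le_exp hT0
  rw [← hY]
  obtain ⟨al, hal⟩ : ∃ al : ℝ, al = 1 / T := ⟨_, rfl⟩
  have hal0 : 0 < al := by
    rw [hal]
    positivity
  have hal1 : al ≤ 1 := by
    rw [hal, div_le_one hTpos]
    linarith
  obtain ⟨Pr, hPr⟩ : ∃ Pr : Finset ℕ, Pr = (Icc 1 ⌊Y⌋₊).filter Nat.Prime := ⟨_, rfl⟩
  obtain ⟨S, hS⟩ : ∃ S : Finset ℕ, S = (Icc 1 ⌊X⌋₊).filter (fun R =>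
    Squarefree R ∧ ∀ p : ℕ, p.Prime → p ∣ R → (p : ℝ) ≤ Y) := ⟨_, rfl⟩
  have hset : {R : ℕ | 1 ≤ R ∧ (R : ℝ) ≤ X ∧ Squarefree R ∧ ∀ p : ℕ, p.Prime → p ∣ R →
      (p : ℝ) ≤ Y} = (S : Set ℕ) := by
    ext R
    rw [hS]
    simp only [Set.mem_setOf_eq, Finset.coe_filter, Finset.mem_Icc]
    constructor
    · rintro ⟨h1, h2, h3, h4⟩
      exact ⟨⟨h1, Nat.le_floor h2⟩, h3, h4⟩
    · rintro ⟨⟨h1, h2⟩, h3, h4⟩
      exact ⟨h1, (Nat.le_floor_iff hX0.le).1 h2, h3, h4⟩
  rw [hset, Set.ncard_coe_finset]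
  -- Rankin
  have hSm : ∀ R ∈ S, 1 ≤ R ∧ (R : ℝ) ≤ X ∧ Squarefree R ∧ ∀ p : ℕ, p.Prime → p ∣ R →
      (p : ℝ) ≤ Y := by
    intro R hR
    have : R ∈ (S : Set ℕ) := hR
    rw [← hset] at this
    exact this
  have h1 : (S.card : ℝ) ≤ ∑ R ∈ S, X ^ (1 - al) * ∏ p ∈ R.primeFactors, (p : ℝ) ^ (al - 1) := by
    have : (S.card : ℝ) = ∑ R ∈ S, (1 : ℝ) := by simp
    rw [this]
    refine Finset.sum_le_sum fun R hR => ?_
    obtain ⟨hR1, hRX, hRs, _⟩ := hSm R hR
    have hR0 : (0 : ℝ) < R := by exact_mod_cast hR1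
    have e1 : ∏ p ∈ R.primeFactors, (p : ℝ) ^ (al - 1) = (R : ℝ) ^ (al - 1) := by
      rw [Real.finset_prod_rpow _ _ (fun p _ => Nat.cast_nonneg p)]
      congr 1
      have := Nat.prod_primeFactors_of_squarefree hRs
      rw [← Nat.cast_prod, this]
    rw [e1]
    have e2 : X ^ (1 - al) * (R : ℝ) ^ (al - 1) = (X / R) ^ (1 - al) := by
      rw [Real.div_rpow hX0.le hR0.le, div_eq_mul_inv, ← Real.rpow_neg hR0.le]
      congr 2
      ring
    rw [e2]
    exact Real.one_le_rpow (by rw [le_div_iff₀ hR0]; linarith) (by linarith)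
  have h2 : ∑ R ∈ S, X ^ (1 - al) * ∏ p ∈ R.primeFactors, (p : ℝ) ^ (al - 1) ≤
      X ^ (1 - al) * ∏ p ∈ Pr, (1 + (p : ℝ) ^ (al - 1)) := by
    rw [← Finset.mul_sum]
    refine mul_le_mul_of_nonneg_left ?_ (Real.rpow_nonneg hX0.le _)
    rw [Finset.prod_one_add]
    have hinj : Set.InjOn (fun R : ℕ => R.primeFactors) (S : Set ℕ) := by
      intro R hR R' hR' h
      have e1 := Nat.prod_primeFactors_of_squarefree (hSm R hR).2.2.1
      have e2 := Nat.prod_primeFactors_of_squarefree (hSm R' hR').2.2.1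
      simp only at h
      rw [← e1, ← e2, h]
    rw [← Finset.sum_image (f := fun t : Finset ℕ => ∏ p ∈ t, (p : ℝ) ^ (al - 1)) hinj]
    refine Finset.sum_le_sum_of_subset_of_nonneg ?_ (fun t _ _ =>
      Finset.prod_nonneg fun p _ => Real.rpow_nonneg (Nat.cast_nonneg p) _)
    intro t ht
    obtain ⟨R, hR, rfl⟩ := Finset.mem_image.1 ht
    rw [Finset.mem_powerset]
    intro p hp
    have hpp := Nat.prime_of_mem_primeFactors hp
    rw [hPr, Finset.mem_filter, Finset.mem_Icc]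
    exact ⟨⟨hpp.one_le, Nat.le_floor ((hSm R hR).2.2.2 p hpp (Nat.dvd_of_mem_primeFactors hp))⟩,
      hpp⟩
  have h3 : ∏ p ∈ Pr, (1 + (p : ℝ) ^ (al - 1)) ≤ Real.exp (3 * (1 + T)) := by
    calc ∏ p ∈ Pr, (1 + (p : ℝ) ^ (al - 1)) ≤ ∏ p ∈ Pr, Real.exp (3 * (1 / (p : ℝ))) := by
          refine Finset.prod_le_prod (fun p _ => by
            have := Real.rpow_nonneg (Nat.cast_nonneg (α := ℝ) p) (al - 1)
            linarith) (fun p hp => ?_)
          rw [hPr, Finset.mem_filter, Finset.mem_Icc] at hp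
          have hp1 : (1 : ℝ) ≤ p := by exact_mod_cast hp.1.1
          have hpY : (p : ℝ) ≤ Y := (Nat.le_floor_iff (by linarith)).1 hp.1.2
          have hp0 : (0 : ℝ) < p := by linarith
          have e1 : (p : ℝ) ^ (al - 1) = (p : ℝ) ^ al * (1 / p) := by
            rw [Real.rpow_sub hp0, Real.rpow_one]
            ring
          have e2 : (p : ℝ) ^ al ≤ 3 := by
            calc (p : ℝ) ^ al ≤ Y ^ al := Real.rpow_le_rpow hp0.le hpY hal0.le
              _ = Real.exp 1 := by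
                rw [hY, ← Real.exp_mul, hal]
                congr 1
                field_simp
              _ ≤ 3 := by
                have := Real.exp_one_lt_d9
                linarith
          have e3 : (p : ℝ) ^ (al - 1) ≤ 3 * (1 / (p : ℝ)) := by
            rw [e1]
            exact mul_le_mul_of_nonneg_right e2 (by positivity)
          have e4 := Real.add_one_le_exp (3 * (1 / (p : ℝ)))
          linarith
      _ = Real.exp (∑ p ∈ Pr, 3 * (1 / (p : ℝ))) := (Real.exp_sum _ _).symm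
      _ ≤ Real.exp (3 * (1 + T)) := by
          apply Real.exp_le_exp.2
          rw [← Finset.mul_sum]
          refine mul_le_mul_of_nonneg_left ?_ (by norm_num)
          have e5 : ∑ p ∈ Pr, 1 / (p : ℝ) ≤ ∑ n ∈ Icc 1 ⌊Y⌋₊, 1 / (n : ℝ) := by
            rw [hPr]
            exact Finset.sum_le_sum_of_subset_of_nonneg (Finset.filter_subset _ _)
              (fun n _ _ => by positivity)
          refine e5.trans ?_
          have e6 := harmonic_floor_le_one_add_log Y hY1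
          have e7 : ((harmonic ⌊Y⌋₊ : ℚ) : ℝ) = ∑ n ∈ Icc 1 ⌊Y⌋₊, 1 / (n : ℝ) := by
            rw [harmonic_eq_sum_Icc]
            push_cast
            simp
          rw [e7, hY, Real.log_exp] at e6
          rw [hY]
          exact e6
  have h4 : X ^ (1 - al) = X * Real.exp (-(T ^ 2)) := by
    rw [Real.rpow_sub hX0, Real.rpow_one, div_eq_mul_inv, ← Real.rpow_neg hX0.le]
    congr 1
    rw [Real.rpow_def_of_pos hX0, ← hL, ← hT3, hal]
    congr 1
    field_simp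
  calc (S.card : ℝ) ≤ X ^ (1 - al) * ∏ p ∈ Pr, (1 + (p : ℝ) ^ (al - 1)) := h1.trans h2
    _ ≤ X ^ (1 - al) * Real.exp (3 * (1 + T)) :=
        mul_le_mul_of_nonneg_left h3 (Real.rpow_nonneg hX0.le _)
    _ = X * Real.exp (-(T ^ 2) + 3 * (1 + T)) := by
        rw [h4, Real.exp_add]
        ring
    _ ≤ X * Real.exp (-(T / 90)) := by
        refine mul_le_mul_of_nonneg_left (Real.exp_le_exp.2 ?_) hX0.le
        nlinarith

end Pool.Agent.W378.RD.D6
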